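import Pool.Agent.X235.Wang.CE

set_option autoImplicit false

/-!
The set `PTile_FIN` of the finite Wang tile sets which admit a tiling and all of whose tilings are
periodic is `Σ⁰₂`, in fact the difference of two c.e. sets.
-/

namespace Pool.Agent.Results.MP_da2aca_lc.SigmaTwo

open Pool.Agent.X235.Wang Pool.Agent.Helper446

/-- The set of the prototile sets all of whose tilings are periodic is c.e., the set of those
admitting no tiling is c.e., and `PTile_FIN` is `Σ⁰₂`. -/
theorem result :
    REPred (fun S : List Tile => ∀ T, IsTiling S T → IsPeriodic T) ∧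
    REPred (fun S : List Tile => ¬ ∃ T, IsTiling S T) ∧
    ∃ R : List Tile → ℕ → ℕ → Bool,
      Computable (fun x : List Tile × ℕ × ℕ => R x.1 x.2.1 x.2.2) ∧
      ∀ S, S ∈ PTileFIN ↔ ∃ a, ∀ b, R S a b = true := by
  refine ⟨re_all, re_none, ?_⟩
  obtain ⟨q, hq, h⟩ := RE.re_iff.1 re_all
  obtain ⟨r, hr, h'⟩ := RE.re_iff.1 re_none
  refine ⟨fun S a b => q S a && !(r S b), ?_, fun S => ?_⟩
  · have h1 : Computable fun x : List Tile × ℕ × ℕ => q x.1 x.2.1 :=
      hq.comp Computable.fst (Computable.fst.comp Computable.snd)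
    have h2 : Computable fun x : List Tile × ℕ × ℕ => r x.1 x.2.2 :=
      hr.comp Computable.fst (Computable.snd.comp Computable.snd)
    exact Primrec.and.to_comp.comp h1 (Primrec.not.to_comp.comp h2)
  · show ((∃ T, IsTiling S T) ∧ ∀ T, IsTiling S T → IsPeriodic T) ↔ _
    rw [h S]
    have h3 : (∃ T, IsTiling S T) ↔ ∀ b, r S b ≠ true := by
      rw [← not_exists, ← h' S, not_not]
    rw [h3]
    simp only [Bool.and_eq_true, Bool.not_eq_true', ne_eq, Bool.not_eq_true]
    constructor
    · rintro ⟨h1, a, ha⟩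
      exact ⟨a, fun b => ⟨ha, h1 b⟩⟩
    · rintro ⟨a, ha⟩
      exact ⟨fun b => (ha b).2, a, (ha 0).1⟩

end Pool.Agent.Results.MP_da2aca_lc.SigmaTwo
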